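import Pool.Agent.W84.G.Defs2
import Pool.Agent.W78.GA.Basic

/-!
# The coloured function `Fg` is invariant
-/

set_option autoImplicit false

namespace Pool.Agent.W214.G

open Finset Filter
open Pool.Agent.H376R2.MR
open Pool.Agent.W78.GA Pool.Agent.W78.GC Pool.Agent.W84.FP
open Pool.Agent.W84.G
open Pool.Agent.W80.GC (cl)

variable {t c : ℤ}

theorem dvd_two' {q p p' n : ℕ} (hp : p.Prime) (hp' : p'.Prime) (h : (q : ℤ) ∣ (p : ℤ) - 1)
    (h' : (q : ℤ) ∣ (p' : ℤ) - 1) (hn : n ∣ p * p') : (q : ℤ) ∣ (n : ℤ) - 1 := by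
  obtain ⟨a, b, ha, hb, rfl⟩ := (Nat.dvd_mul).1 hn
  have h1 : (q : ℤ) ∣ (a : ℤ) - 1 := by
    rcases (Nat.dvd_prime hp).1 ha with h0 | h0
    · rw [h0]; simp
    · rw [h0]; exact h
  have h2 : (q : ℤ) ∣ (b : ℤ) - 1 := by
    rcases (Nat.dvd_prime hp').1 hb with h0 | h0
    · rw [h0]; simp
    · rw [h0]; exact h'
  have e : (((a * b : ℕ) : ℤ)) - 1 = ((a : ℤ) - 1) * b + ((b : ℤ) - 1) := by push_cast; ring
  rw [e]
  exact dvd_add (h1.mul_right _) h2

theorem colour' {q n : ℕ} {v u z : Qd t c} (hv : cl q v) (hn : (q : ℤ) ∣ (n : ℤ) - 1)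
    (h : v * u = (n : Qd t c) * z) : cg q u ↔ cg q z := by
  have hv' : (q : Qd t c) ∣ v - 1 := hv
  have hn' : (q : Qd t c) ∣ (n : Qd t c) - 1 := by
    obtain ⟨w, hw⟩ := hn
    refine ⟨(w : Qd t c), ?_⟩
    have := congrArg (fun x : ℤ => (x : Qd t c)) hw
    simpa using this
  have hd : (q : Qd t c) ∣ u - z := by
    have e : u - z = ((n : Qd t c) - 1) * z - (v - 1) * u := by
      linear_combination h
    rw [e]
    exact dvd_sub (hn'.mul_right z) (hv'.mul_right u)
  rw [natCast_dvd, QuadraticAlgebra.re_sub, QuadraticAlgebra.im_sub] at hd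
  obtain ⟨h1, h2⟩ := hd
  have key : ∀ a b : Qd t c, (q : ℤ) ∣ a.re - b.re → (q : ℤ) ∣ a.im - b.im → cg q a → cg q b := by
    rintro a b h1 h2 ⟨h3, m, h4, h5⟩
    refine ⟨?_, m, h4, ?_⟩
    · have e : b.im = a.im - (a.im - b.im) := by ring
      rw [e]
      exact dvd_sub h3 h2
    · have e : (m : ℤ) * b.re - 1 = ((m : ℤ) * a.re - 1) - (m : ℤ) * (a.re - b.re) := by ring
      rw [e]
      exact dvd_sub h5 (h1.mul_left _)
  constructor
  · exact key u z h1 h2
  · refine key z u ?_ ?_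
    · rw [← dvd_neg, neg_sub]; exact h1
    · rw [← dvd_neg, neg_sub]; exact h2

theorem twn (hD : t ^ 2 < 4 * c) : S_TWN t c := by
  classical
  intro q hq Ap Bp M E ρ ϖ hE hc hAB
  refine ⟨⟨?_, ?_⟩, ?_⟩
  · intro z
    unfold Fg
    split_ifs
    · rcases gl_eq z with h | h <;> rw [h] <;> simp
    · simp
  · intro m n u z hm hnm hu hz heq
    obtain ⟨p, p', hp, hp', hmp, _, _⟩ := hE.fac m hm
    have pp := (hE.prA p hp).1
    have pp' := (hE.prB p' hp').1
    have hn : (q : ℤ) ∣ (n : ℤ) - 1 :=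
      dvd_two' pp pp' (hAB p (Or.inl hp)) (hAB p' (Or.inr hp')) (by rw [← hmp]; exact hnm)
    have hcol := colour' (hc m hm) hn heq
    have hgl : gl u = gl z := by
      have hnm' := (hE.elt m hm).1
      have hm0 : m ≠ 0 := by rw [hmp]; exact Nat.mul_ne_zero pp.ne_zero pp'.ne_zero
      have hϖ : ϖ m ≠ 0 := by
        intro h
        rw [h, nm_zero] at hnm'
        exact hm0 hnm'.symm
      have hn0 : 0 < n := Nat.pos_of_dvd_of_pos hnm (Nat.pos_of_ne_zero hm0)
      have e1 := congrArg gl heq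
      rw [gl_mul hD hϖ (prim_ne_zero hu), gl_natCast_mul hn0 hD (prim_ne_zero hz)] at e1
      have e2 : gl (ϖ m) = 1 := by
        unfold gl
        rw [hnm', hmp, lam_mul pp.ne_zero pp'.ne_zero, lam_prime pp, lam_prime pp']
        norm_num
      rw [e2, one_mul] at e1
      exact e1
    unfold Fg
    by_cases h : cg q u
    · rw [if_pos h, if_pos (hcol.1 h), hgl]
    · rw [if_neg h, if_neg (fun h' => h (hcol.2 h'))]
  · intro Y k
    unfold GF Gc DPG cball
    rw [Finset.sum_filter]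
    apply Finset.sum_congr rfl
    intro z _
    unfold Fg
    by_cases h : cg q z
    · simp only [if_pos h]
    · simp only [if_neg h, Int.cast_zero, zero_mul]

end Pool.Agent.W214.G
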